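import Pool.Agent.Work.MP_db9399_cg_helper75.A3b

/-!
# MP_db9399, SPW, block A3: the coins at a vertex (helper75)
-/

set_option autoImplicit false

namespace Pool.Agent.Work.MP_db9399_cg.helper75

open Finset Classical
open Pool.Agent.Work.MP_db9399_all (nb pr DepOnI PackI)
open Pool.Agent.Work.MP_db9399_en (ex mg)

universe u v

variable {V : Type u} [Fintype V] {M : ℕ}

theorem mul_vl (A : Prop) (θ γ α β : ℝ) (x : Fin M) :
    vl A θ (γ * α) (γ * β) x = γ * vl A θ α β x := by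
  unfold vl
  split_ifs <;> simp

/-- the sum of the errors of the neighbours, decomposed -/
theorem iii_eq (G1 : SimpleGraph V) (θ x1 : V → V → ℝ) (cc : V → ℝ) (f : Sym2 V → Fin M) (s : Bool)
    (v : V) :
    ∑ w ∈ sdc (cO G1 f) (cZ G1 θ f) s v,
        (tot (cO G1 f) (cZ G1 θ f) x1 (!s) w - mtot G1 θ x1 w) / cc w =
      ∑ w ∈ nb G1 v, vl (oc s v w) (θ v w) 0 (1 / cc w) (f s(v, w)) *
        (vl (oc (!s) w v) (θ w v) 1 (x1 w v) (f s(w, v)) - (θ w v + (1 - θ w v) * x1 w v) / 2) +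
      (X2 G1 θ x1 cc (fun a b => s(a, b)) v s true f + X2 G1 θ x1 cc (fun a b => s(a, b)) v s false f) +
      ∑ w ∈ nb G1 v, ∑ y ∈ (nb G1 w).erase v, vl (oc s v w) (θ v w) 0 (1 / cc w) (f s(v, w)) *
        ((∑ x : Fin M, vl (oc (!s) w y) (θ w y) 1 (x1 w y) x) / M -
          (θ w y + (1 - θ w y) * x1 w y) / 2) := by
  have h1 := side_sum G1 θ f s v (fun _ => 0)
    (fun w => (tot (cO G1 f) (cZ G1 θ f) x1 (!s) w - mtot G1 θ x1 w) / cc w)
  simp only [sum_const_zero, zero_add] at h1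
  rw [h1]
  unfold X2
  rw [← sum_P2 G1 v (fun w y => vl (oc s v w) (θ v w) 0 (1 / cc w) (f s(v, w)) *
    (vl (oc (!s) w y) (θ w y) 1 (x1 w y) (f s(w, y)) -
      (∑ x : Fin M, vl (oc (!s) w y) (θ w y) 1 (x1 w y) x) / M)), ← sum_add_distrib,
    ← sum_add_distrib]
  refine sum_congr rfl fun w hw => ?_
  have hv : v ∈ nb G1 w := mem_nb.2 (mem_nb.1 hw).symm
  have h2 : vl (oc s v w) (θ v w) 0
      ((tot (cO G1 f) (cZ G1 θ f) x1 (!s) w - mtot G1 θ x1 w) / cc w) (f s(v, w)) =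
      (tot (cO G1 f) (cZ G1 θ f) x1 (!s) w - mtot G1 θ x1 w) *
        vl (oc s v w) (θ v w) 0 (1 / cc w) (f s(v, w)) := by
    rw [← mul_vl, mul_zero, mul_one_div]
  rw [h2, tot_eq]
  unfold mtot
  rw [sum_div, ← sum_sub_distrib, ← sum_erase_add _ _ hv, ← mul_sum, ← mul_sum]
  rw [add_mul, sum_mul, mul_comm (vl (oc (!s) w v) (θ w v) 1 (x1 w v) (f s(w, v)) -
    (θ w v + (1 - θ w v) * x1 w v) / 2)]
  rw [mul_sum, mul_sum, add_comm, add_assoc, ← sum_add_distrib]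
  congr 1
  refine sum_congr rfl fun y _ => ?_
  ring

theorem vl_zero_case {A B : Prop} {θ α β γ : ℝ} (x : Fin M) :
    vl A θ 0 γ x * vl B θ α β x = vl A θ 0 γ x * vl B θ β β x := by
  unfold vl
  split_ifs <;> simp

/-- bound of the third condition -/
theorem iii_le {N : ℕ} (hN : 0 < N) (hMN : M = 2 * N) (G1 : SimpleGraph V) (θ x1 : V → V → ℝ)
    (cc : V → ℝ) (f : Sym2 V → Fin M) (s : Bool) (v : V) {d : ℕ} {κ t3 : ℝ}
    (hd : ∀ w, (nb G1 w).card ≤ d) (hd0 : 0 < d) (hκ1 : κ ≤ 1 / 2)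
    (hθs : ∀ v w, θ v w = θ w v)
    (hθ : ∀ v w, 0 ≤ θ v w ∧ θ v w ≤ 2 * κ) (hx : ∀ v w, 0 ≤ x1 v w ∧ x1 v w ≤ 2 * κ)
    (hcc : ∀ w, (d : ℝ) / 4 ≤ cc w)
    (hX : ∀ τ, |X2 G1 θ x1 cc (fun a b => s(a, b)) v s τ f| < t3) :
    |∑ w ∈ sdc (cO G1 f) (cZ G1 θ f) s v,
        (tot (cO G1 f) (cZ G1 θ f) x1 (!s) w - mtot G1 θ x1 w) / cc w| ≤
      8 * κ + 2 * t3 + 2 * d / N := by
  have hd' : (0 : ℝ) < d := by exact_mod_cast hd0
  have hN' : (0 : ℝ) < N := by exact_mod_cast hN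
  have hcc' : ∀ w, 0 ≤ 1 / cc w ∧ 1 / cc w ≤ 4 / d := by
    intro w
    have h1 := hcc w
    have h2 : 0 < cc w := lt_of_lt_of_le (by positivity) h1
    refine ⟨by positivity, ?_⟩
    rw [div_le_div_iff₀ h2 hd']
    linarith
  have hc0 : ∀ w, 0 ≤ vl (oc s v w) (θ v w) 0 (1 / cc w) (f s(v, w)) :=
    fun w => vl_nonneg _ _ (le_refl _) (hcc' w).1 _
  have hc1 : ∀ w, vl (oc s v w) (θ v w) 0 (1 / cc w) (f s(v, w)) ≤ 4 / d :=
    fun w => vl_le _ _ (by positivity) (hcc' w).2 (by positivity) _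
  have hcard : ((nb G1 v).card : ℝ) ≤ d := by exact_mod_cast hd v
  rw [iii_eq]
  have e1 : |∑ w ∈ nb G1 v, vl (oc s v w) (θ v w) 0 (1 / cc w) (f s(v, w)) *
      (vl (oc (!s) w v) (θ w v) 1 (x1 w v) (f s(w, v)) - (θ w v + (1 - θ w v) * x1 w v) / 2)| ≤
      8 * κ := by
    refine (abs_sum_le_sum_abs _ _).trans ?_
    have h1 : ∀ w ∈ nb G1 v, |vl (oc s v w) (θ v w) 0 (1 / cc w) (f s(v, w)) *
      (vl (oc (!s) w v) (θ w v) 1 (x1 w v) (f s(w, v)) - (θ w v + (1 - θ w v) * x1 w v) / 2)| ≤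
      4 / d * (2 * κ) := by
      intro w _
      have h2 : vl (oc s v w) (θ v w) 0 (1 / cc w) (f s(v, w)) *
          vl (oc (!s) w v) (θ w v) 1 (x1 w v) (f s(w, v)) =
          vl (oc s v w) (θ v w) 0 (1 / cc w) (f s(v, w)) *
          vl (oc (!s) w v) (θ w v) (x1 w v) (x1 w v) (f s(v, w)) := by
        rw [Sym2.eq_swap (a := w) (b := v), hθs w v]
        exact vl_zero_case _
      rw [mul_sub, h2, ← mul_sub, abs_mul, abs_of_nonneg (hc0 w)]
      refine mul_le_mul (hc1 w) ?_ (abs_nonneg _) (by positivity)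
      have h3 := vl_nonneg (M := M) (oc (!s) w v) (θ w v) (hx w v).1 (hx w v).1 (f s(v, w))
      have h4 := vl_le (M := M) (oc (!s) w v) (θ w v) (hx w v).2 (hx w v).2
        ((hx w v).1.trans (hx w v).2) (f s(v, w))
      have h5 := hθ w v
      have h6 := hx w v
      have h7 : 0 ≤ θ w v * x1 w v := mul_nonneg h5.1 h6.1
      have h8 : 0 ≤ (1 - θ w v) * x1 w v := mul_nonneg (by linarith) h6.1
      rw [abs_le]
      constructor <;> nlinarith
    refine (sum_le_sum h1).trans ?_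
    rw [sum_const, nsmul_eq_mul]
    have hκ0 : 0 ≤ κ := by
      have := hx v v
      linarith [this.1, this.2]
    calc ((nb G1 v).card : ℝ) * (4 / d * (2 * κ)) ≤ d * (4 / d * (2 * κ)) :=
          mul_le_mul_of_nonneg_right hcard (by positivity)
      _ = 8 * κ := by field_simp; ring
  have e2 : |X2 G1 θ x1 cc (fun a b => s(a, b)) v s true f +
      X2 G1 θ x1 cc (fun a b => s(a, b)) v s false f| ≤ 2 * t3 := by
    have h1 := hX true
    have h2 := hX false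
    have h3 := abs_add_le (X2 G1 θ x1 cc (fun a b => s(a, b)) v s true f)
      (X2 G1 θ x1 cc (fun a b => s(a, b)) v s false f)
    linarith
  have e3 : |∑ w ∈ nb G1 v, ∑ y ∈ (nb G1 w).erase v, vl (oc s v w) (θ v w) 0 (1 / cc w) (f s(v, w)) *
        ((∑ x : Fin M, vl (oc (!s) w y) (θ w y) 1 (x1 w y) x) / M -
          (θ w y + (1 - θ w y) * x1 w y) / 2)| ≤ 2 * d / N := by
    refine (abs_sum_le_sum_abs _ _).trans ?_
    have h1 : ∀ w ∈ nb G1 v, |∑ y ∈ (nb G1 w).erase v,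
        vl (oc s v w) (θ v w) 0 (1 / cc w) (f s(v, w)) *
        ((∑ x : Fin M, vl (oc (!s) w y) (θ w y) 1 (x1 w y) x) / M -
          (θ w y + (1 - θ w y) * x1 w y) / 2)| ≤ d * (4 / d * (1 / (2 * N))) := by
      intro w _
      refine (abs_sum_le_sum_abs _ _).trans ?_
      have h2 : ∀ y ∈ (nb G1 w).erase v, |vl (oc s v w) (θ v w) 0 (1 / cc w) (f s(v, w)) *
        ((∑ x : Fin M, vl (oc (!s) w y) (θ w y) 1 (x1 w y) x) / M -
          (θ w y + (1 - θ w y) * x1 w y) / 2)| ≤ 4 / d * (1 / (2 * N)) := by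
        intro y _
        rw [abs_mul, abs_of_nonneg (hc0 w)]
        refine mul_le_mul (hc1 w) ?_ (abs_nonneg _) (by positivity)
        have h3 := vl_mean' hN hMN (oc (!s) w y) (hθ w y).1 ((hθ w y).2.trans (by linarith))
          zero_le_one (le_refl 1) (hx w y).1 ((hx w y).2.trans (by linarith))
        rw [mul_one] at h3
        exact h3
      refine (sum_le_sum h2).trans ?_
      rw [sum_const, nsmul_eq_mul]
      refine mul_le_mul_of_nonneg_right ?_ (by positivity)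
      exact_mod_cast (card_le_card (erase_subset _ _)).trans (hd w)
    refine (sum_le_sum h1).trans ?_
    rw [sum_const, nsmul_eq_mul]
    calc ((nb G1 v).card : ℝ) * (d * (4 / d * (1 / (2 * N)))) ≤ d * (d * (4 / d * (1 / (2 * N)))) :=
          mul_le_mul_of_nonneg_right hcard (by positivity)
      _ = 2 * d / N := by field_simp; ring
  refine (abs_add_le _ _).trans ?_
  have e4 := abs_add_le (∑ w ∈ nb G1 v, vl (oc s v w) (θ v w) 0 (1 / cc w) (f s(v, w)) *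
        (vl (oc (!s) w v) (θ w v) 1 (x1 w v) (f s(w, v)) - (θ w v + (1 - θ w v) * x1 w v) / 2))
      (X2 G1 θ x1 cc (fun a b => s(a, b)) v s true f + X2 G1 θ x1 cc (fun a b => s(a, b)) v s false f)
  linarith

/-- the numerical facts -/
structure Num (a : ℝ) (m d : ℕ) : Prop where
  l0 : 3 / a ≤ Real.log d
  l1 : (10 : ℝ) ^ 6 ≤ Real.log d
  l2 : Real.log d ^ 30 ≤ d
  l3 : (4 * m + 4) * (2 * Real.exp (-(Real.log d ^ 2 / 10000))) ≤ 1 / (d : ℝ) ^ 8 / Real.exp 1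

theorem num_large (a : ℝ) (m : ℕ) : ∃ d0 : ℕ, ∀ d : ℕ, d0 ≤ d → Num a m d := by
  have h0 : ∀ᶠ x : ℝ in Filter.atTop, 3 / a ≤ Real.log x :=
    Real.tendsto_log_atTop.eventually_ge_atTop _
  have h1 : ∀ᶠ x : ℝ in Filter.atTop, (10 : ℝ) ^ 6 + 10 ^ 5 * m ≤ Real.log x :=
    Real.tendsto_log_atTop.eventually_ge_atTop _
  have h2 : ∀ᶠ x : ℝ in Filter.atTop, ‖Real.log x ^ 30‖ ≤ 1 * ‖(id x : ℝ)‖ :=
    (Real.isLittleO_pow_log_id_atTop (n := 30)).def one_pos
  have h3 : ∀ᶠ x : ℝ in Filter.atTop, (1 : ℝ) ≤ x := Filter.eventually_ge_atTop _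
  obtain ⟨x0, hx0⟩ := Filter.eventually_atTop.1 (h0.and (h1.and (h2.and h3)))
  refine ⟨⌈x0⌉₊, fun d hd => ?_⟩
  obtain ⟨a0, a1, a2, a3⟩ := hx0 d ((Nat.le_ceil x0).trans (by exact_mod_cast hd))
  have hd0 : (0 : ℝ) < d := by linarith
  have hm0 : (0 : ℝ) ≤ m := Nat.cast_nonneg m
  refine ⟨a0, by nlinarith, ?_, ?_⟩
  · have h4 : |Real.log d ^ 30| ≤ 1 * |(d : ℝ)| := a2
    rw [abs_of_pos hd0, one_mul] at h4
    exact (le_abs_self _).trans h4
  · have e1 : (d : ℝ) ^ 8 = Real.exp (8 * Real.log d) := by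
      rw [mul_comm, Real.exp_mul, Real.exp_log hd0]
      norm_cast
    rw [e1, div_div, ← Real.exp_add, one_div, ← Real.exp_neg]
    have e2 : (4 * (m : ℝ) + 4) * 2 ≤ Real.exp (8 * (m : ℝ) + 7) := by
      have := Real.add_one_le_exp (8 * (m : ℝ) + 7)
      linarith
    calc (4 * (m : ℝ) + 4) * (2 * Real.exp (-(Real.log d ^ 2 / 10000)))
        = ((4 * (m : ℝ) + 4) * 2) * Real.exp (-(Real.log d ^ 2 / 10000)) := by ring
      _ ≤ Real.exp (8 * (m : ℝ) + 7) * Real.exp (-(Real.log d ^ 2 / 10000)) :=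
          mul_le_mul_of_nonneg_right e2 (Real.exp_pos _).le
      _ = Real.exp (8 * (m : ℝ) + 7 + -(Real.log d ^ 2 / 10000)) := (Real.exp_add _ _).symm
      _ ≤ Real.exp (-(8 * Real.log d + 1)) := by
          refine Real.exp_le_exp.2 ?_
          nlinarith

theorem sides_congr {G1 : SimpleGraph V} {θ : V → V → ℝ} {f f' : Sym2 V → Fin M} {v : V}
    (h : ∀ w, G1.Adj v w → f s(v, w) = f' s(v, w)) (s : Bool) :
    sdz (cO G1 f) (cZ G1 θ f) s v = sdz (cO G1 f') (cZ G1 θ f') s v ∧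
    sdc (cO G1 f) (cZ G1 θ f) s v = sdc (cO G1 f') (cZ G1 θ f') s v := by
  have h1 : ∀ w, w ∈ sd (cO G1 f) s v ↔ w ∈ sd (cO G1 f') s v := by
    intro w
    rw [mem_sd, mem_sd]
    constructor
    · rintro ⟨h2, h3⟩
      exact ⟨h2, by rw [← h w h2]; exact h3⟩
    · rintro ⟨h2, h3⟩
      exact ⟨h2, by rw [h w h2]; exact h3⟩
  have h2 : ∀ w, w ∈ sd (cO G1 f) s v → (cZ G1 θ f v w ↔ cZ G1 θ f' v w) := by
    intro w hw
    have hadj := (mem_sd.1 hw).1
    rw [cZ_iff hadj, cZ_iff hadj, h w hadj]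
  constructor
  · ext w
    unfold sdz
    rw [mem_filter, mem_filter]
    constructor
    · rintro ⟨a, b⟩
      exact ⟨(h1 w).1 a, (h2 w a).1 b⟩
    · rintro ⟨a, b⟩
      exact ⟨(h1 w).2 a, (h2 w ((h1 w).2 a)).2 b⟩
  · ext w
    unfold sdc
    rw [mem_filter, mem_filter]
    constructor
    · rintro ⟨a, b⟩
      exact ⟨(h1 w).1 a, fun c => b ((h2 w a).2 c)⟩
    · rintro ⟨a, b⟩
      exact ⟨(h1 w).2 a, fun c => b ((h2 w ((h1 w).2 a)).1 c)⟩

theorem coin_of {G1 : SimpleGraph V} {d : ℕ} {κ : ℝ} {θ x1 : V → V → ℝ} {m : ℕ}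
    {h : Fin m → V → V → ℝ} {cc : V → ℝ} {f f' : Sym2 V → Fin M} {v : V}
    (hv : ∀ w, G1.Adj v w → f s(v, w) = f' s(v, w))
    (hw : ∀ w, G1.Adj v w → ∀ y, G1.Adj w y → f s(w, y) = f' s(w, y))
    (hC : CoinV G1 d κ θ x1 h cc (cO G1 f) (cZ G1 θ f) v) :
    CoinV G1 d κ θ x1 h cc (cO G1 f') (cZ G1 θ f') v := by
  refine ⟨fun j s => ?_, fun j s => ?_, fun s => ?_⟩
  · rw [← (sides_congr hv s).2]
    exact hC.i j s
  · rw [← (sides_congr hv s).1]
    exact hC.ii j s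
  · rw [← (sides_congr (θ := θ) hv s).2]
    have h1 : ∑ w ∈ sdc (cO G1 f) (cZ G1 θ f) s v,
        (tot (cO G1 f') (cZ G1 θ f') x1 (!s) w - mtot G1 θ x1 w) / cc w =
        ∑ w ∈ sdc (cO G1 f) (cZ G1 θ f) s v,
        (tot (cO G1 f) (cZ G1 θ f) x1 (!s) w - mtot G1 θ x1 w) / cc w := by
      refine sum_congr rfl fun w hwm => ?_
      have hadj : G1.Adj v w := (mem_sd.1 (mem_filter.1 hwm).1).1
      have h2 := sides_congr (θ := θ) (hw w hadj) (!s)
      unfold tot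
      rw [h2.1, h2.2]
    rw [h1]
    exact hC.iii s

/-- scope of the event at `v` -/
noncomputable def Qv (G : SimpleGraph V) (v : V) : Finset (Sym2 V) :=
  (bl G v).biUnion fun a => (nb G a).image fun w => s(a, w)

theorem mem_ball1 {G : SimpleGraph V} {v w : V} : w ∈ bl G v ↔ w = v ∨ G.Adj v w := by
  unfold bl
  rw [mem_insert, mem_nb]

theorem card_Qv {G : SimpleGraph V} {d : ℕ} (hr : ∀ v, (nb G v).card = d) (v : V) :
    ((Qv G v).card : ℝ) ≤ (d + 1) * d := by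
  have h1 : (bl G v).card ≤ d + 1 := by
    unfold bl
    refine (card_insert_le _ _).trans ?_
    rw [hr v]
  have h2 : (Qv G v).card ≤ (bl G v).card * d := by
    unfold Qv
    refine card_biUnion_le.trans ?_
    have : ∑ a ∈ bl G v, ((nb G a).image fun w => s(a, w)).card ≤ ∑ _a ∈ bl G v, d :=
      sum_le_sum fun a _ => card_image_le.trans (hr a).le
    rw [sum_const, smul_eq_mul] at this
    exact this
  have h3 : (Qv G v).card ≤ (d + 1) * d := h2.trans (Nat.mul_le_mul_right _ h1)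
  exact_mod_cast h3

theorem stmt_A3 : Stmt_A3.{u} := by
  intro a m ha ha1
  obtain ⟨d0, hnum⟩ := num_large a m
  refine ⟨d0, ?_⟩
  intro V _ G G1 d M κ θ x1 h cc hd hM hE v
  obtain ⟨l0, l1, l2, l3⟩ := hnum d hd
  have hκlo := hE.k1
  have hκhi := hE.k2
  set l : ℝ := Real.log d with hl
  have hl6 : (1 : ℝ) ≤ l := by linarith [show (1 : ℝ) ≤ 10 ^ 6 by norm_num]
  have hl0 : (0 : ℝ) < l := by linarith
  have hld : l ≤ d := by
    calc l = l ^ 1 := (pow_one l).symm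
      _ ≤ l ^ 30 := pow_le_pow_right₀ hl6 (by norm_num)
      _ ≤ d := l2
  have hd' : (1 : ℝ) ≤ d := by linarith
  have hdp : (0 : ℝ) < d := by linarith
  have hd0 : 0 < d := by exact_mod_cast hdp
  have hκ : 0 < κ := lt_of_lt_of_le (Real.rpow_pos_of_pos hdp _) hκlo
  have hκ1 : κ ≤ 1 / 2 := by
    refine hκhi.trans ?_
    rw [Real.rpow_def_of_pos hdp, ← hl]
    have h1 : 3 ≤ l * a := (div_le_iff₀ ha).1 l0
    have h2 : Real.exp (l * -(a / 3)) ≤ Real.exp (-1) := Real.exp_le_exp.2 (by linarith)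
    have h3 : (2 : ℝ) ≤ Real.exp 1 := by
      have := Real.add_one_le_exp (1 : ℝ)
      linarith
    have h4 : Real.exp (-1) ≤ 1 / 2 := by
      rw [Real.exp_neg, one_div]
      exact inv_anti₀ (by norm_num) h3
    exact h2.trans h4
  have hκd : l ^ 15 ≤ κ * d := by
    have h1 : l ^ 15 ≤ √(d : ℝ) := by
      refine Real.le_sqrt_of_sq_le ?_
      rw [← pow_mul]
      exact l2
    have h2 : √(d : ℝ) ≤ (d : ℝ) ^ (-a) * d := by
      rw [Real.sqrt_eq_rpow]
      calc (d : ℝ) ^ (1 / 2 : ℝ) ≤ (d : ℝ) ^ (-a + 1) :=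
            Real.rpow_le_rpow_of_exponent_le hd' (by linarith)
        _ = (d : ℝ) ^ (-a) * d := by rw [Real.rpow_add hdp, Real.rpow_one]
    exact h1.trans (h2.trans (mul_le_mul_of_nonneg_right hκlo hdp.le))
  have hκd1 : l ^ 2 ≤ κ * d := (pow_le_pow_right₀ hl6 (by norm_num)).trans hκd
  have hd2 : l ^ 2 ≤ d := (pow_le_pow_right₀ hl6 (by norm_num)).trans l2
  have hN0 : 0 < d ^ 4 := by positivity
  have hN' : ((d ^ 4 : ℕ) : ℝ) = (d : ℝ) ^ 4 := by push_cast; ring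
  have hdN : (d : ℝ) ≤ (d : ℝ) ^ 4 := by
    calc (d : ℝ) = d ^ 1 := (pow_one _).symm
      _ ≤ d ^ 4 := pow_le_pow_right₀ hd' (by norm_num)
  have hNκ : 1 / (2 * ((d ^ 4 : ℕ) : ℝ)) ≤ κ := by
    rw [hN', div_le_iff₀ (by positivity)]
    have h1 : κ * d ≤ κ * (2 * (d : ℝ) ^ 4) := mul_le_mul_of_nonneg_left (by linarith) hκ.le
    have h2 : 1 ≤ l ^ 2 := one_le_pow₀ hl6
    linarith
  have hG1 : ∀ w, (nb G1 w).card ≤ d := by
    intro w
    rw [← hE.reg w]
    exact card_le_card fun x hx => mem_nb.2 (hE.sub (mem_nb.1 hx))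
  have hθ : ∀ v w, 0 ≤ θ v w ∧ θ v w ≤ 2 * κ := fun v w => ⟨by linarith [hE.th1 v w], hE.th2 v w⟩
  have hx : ∀ v w, 0 ≤ x1 v w ∧ x1 v w ≤ 2 * κ := fun v w => ⟨hE.y0 v w, hE.y1 v w⟩
  have hsd : l ≤ √(d : ℝ) := Real.le_sqrt_of_sq_le hd2
  have hskd : l ≤ √(κ * d) := Real.le_sqrt_of_sq_le hκd1
  have hsκ : κ ≤ √κ := by
    refine Real.le_sqrt_of_sq_le ?_
    nlinarith
  have hsκ0 : 0 < √κ := Real.sqrt_pos.2 hκ
  have hdN2 : (d : ℝ) / (2 * ((d ^ 4 : ℕ) : ℝ)) ≤ 1 / 2 := by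
    rw [hN', div_le_div_iff₀ (by positivity) (by norm_num)]
    linarith
  have hki : ∀ a b c e : V, s(a, b) = s(c, e) → (a = c ∧ b = e) ∨ (a = e ∧ b = c) :=
    fun a b c e h => Sym2.eq_iff.1 h
  -- the union bound
  have key := bad_le (J := Sym2 V) (M := M) (N := d ^ 4) (m := m) hN0 hM G1 θ x1 h cc
    (fun a b => s(a, b)) hki v (d := d) (κ := κ) (t1 := √(d : ℝ) * l / 2)
    (t2 := √(κ * d) * l / 2) (t3 := √κ * l ^ 2 / 8) (E := l ^ 2 / 10000) hG1 hd0 hκ hκ1 hθ hx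
    (fun j v w => ⟨hE.h0 j v w, hE.h1 j v w⟩) hE.c1 hNκ (by positivity) (by positivity)
    (by positivity)
    (hdN2.trans (by nlinarith)) (hdN2.trans (by nlinarith))
    (by
      refine le_min ?_ ?_
      · rw [div_pow, mul_pow, Real.sq_sqrt hdp.le, div_div, div_le_div_iff₀ (by norm_num)
          (by positivity)]
        nlinarith [mul_pos hdp (pow_pos hl0 2)]
      · have : l * l ≤ √(d : ℝ) * l := mul_le_mul_of_nonneg_right hsd hl0.le
        nlinarith)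
    (by
      refine le_min ?_ ?_
      · rw [div_pow, mul_pow, Real.sq_sqrt (by positivity), div_div, div_le_div_iff₀ (by norm_num)
          (by positivity)]
        nlinarith [mul_pos (mul_pos hκ hdp) (pow_pos hl0 2)]
      · have : l * l ≤ √(κ * d) * l := mul_le_mul_of_nonneg_right hskd hl0.le
        nlinarith)
    (by
      refine le_min ?_ ?_
      · have e1 : (√κ * l ^ 2 / 8) ^ 2 / (4 * (4 / (d : ℝ)) * (12 * κ * d)) = l ^ 4 / 12288 := by
          rw [div_pow, mul_pow, Real.sq_sqrt hκ.le]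
          field_simp
          ring
        rw [e1]
        have h1 : 2 * l ^ 2 ≤ l ^ 4 := by
          have : (2 : ℝ) ≤ l ^ 2 := by nlinarith
          nlinarith [pow_pos hl0 2]
        linarith [pow_pos hl0 2]
      · have e1 : √κ * l ^ 2 / 8 / (2 * (4 / (d : ℝ))) = √κ * d * l ^ 2 / 64 := by
          field_simp
          ring
        rw [e1]
        have h1 : 1 ≤ √κ * d := by
          have h2 : κ * d ≤ √κ * d := mul_le_mul_of_nonneg_right hsκ hdp.le
          nlinarith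
        have h3 : 1 * l ^ 2 ≤ √κ * d * l ^ 2 := mul_le_mul_of_nonneg_right h1 (by positivity)
        linarith [pow_pos hl0 2])
    (fun f => CoinV G1 d κ θ x1 h cc (cO G1 f) (cZ G1 θ f) v)
    (by
      intro f c1 c2 c3
      refine ⟨fun j s => ?_, fun j s => ?_, fun s => ?_⟩
      · have h1 := side_sum G1 θ f s v (fun _ => 0) (fun w => h j v w)
        simp only [sum_const_zero, zero_add] at h1
        rw [h1]
        have h2 := (c1 j s).le
        simp only [mul_zero, zero_add] at h2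
        linarith
      · have h1 := side_sum G1 θ f s v (fun w => h j v w) (fun _ => 0)
        simp only [sum_const_zero, add_zero] at h1
        rw [h1]
        have h2 := (c2 j s).le
        simp only [mul_zero, add_zero] at h2
        linarith
      · have h1 := iii_le hN0 hM G1 θ x1 cc f s v hG1 hd0 hκ1 hE.th hθ hx hE.c1 (c3 s)
        refine h1.trans ?_
        rw [hN']
        have h2 : 8 * κ ≤ √κ * l ^ 2 / 4 := by
          have : (32 : ℝ) ≤ l ^ 2 := by nlinarith [show (32 : ℝ) ≤ 10 ^ 6 by norm_num]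
          nlinarith
        have h3 : 2 * (d : ℝ) / (d : ℝ) ^ 4 ≤ √κ * l ^ 2 / 4 := by
          have h4 : 2 * (d : ℝ) / (d : ℝ) ^ 4 ≤ 2 / d := by
            rw [div_le_div_iff₀ (by positivity) hdp]
            have : (d : ℝ) ^ 2 ≤ d ^ 4 := pow_le_pow_right₀ hd' (by norm_num)
            nlinarith
          have h5 : 2 / (d : ℝ) ≤ 2 * κ := by
            rw [div_le_iff₀ hdp]
            nlinarith [pow_pos hl0 2]
          linarith
        linarith)
  refine ⟨PUnit, inferInstance, fun _ => Qv G v,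
    fun _ f => ¬ CoinV G1 d κ θ x1 h cc (cO G1 f) (cZ G1 θ f) v, ?_, ?_, ?_, ?_, ?_⟩
  · -- scope
    intro _ f f' hff
    have hb : ∀ a b, (a = v ∨ G1.Adj v a) → G1.Adj a b → f s(a, b) = f' s(a, b) := by
      intro a b ha hab
      refine hff _ (mem_biUnion.2 ⟨a, mem_ball1.2 ?_, mem_image.2 ⟨b, mem_nb.2 (hE.sub hab), rfl⟩⟩)
      rcases ha with h1 | h1
      · exact Or.inl h1
      · exact Or.inr (hE.sub h1)
    have h1 : CoinV G1 d κ θ x1 h cc (cO G1 f) (cZ G1 θ f) v ↔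
        CoinV G1 d κ θ x1 h cc (cO G1 f') (cZ G1 θ f') v := by
      constructor
      · exact coin_of (fun w hw => hb v w (Or.inl rfl) hw)
          (fun w hw y hy => hb w y (Or.inr hw) hy)
      · exact coin_of (fun w hw => (hb v w (Or.inl rfl) hw).symm)
          (fun w hw y hy => (hb w y (Or.inr hw) hy).symm)
    simp only [h1]
  · -- nonempty
    intro _
    have h1 : (nb G v).Nonempty := by
      rw [← Finset.card_pos, hE.reg v]
      exact hd0
    obtain ⟨w, hw⟩ := h1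
    exact ⟨s(v, w), mem_biUnion.2 ⟨v, mem_ball1.2 (Or.inl rfl), mem_image.2 ⟨w, hw, rfl⟩⟩⟩
  · -- inside the scope of the package
    intro _ e he
    obtain ⟨a, ha, he⟩ := mem_biUnion.1 he
    obtain ⟨w, _, rfl⟩ := mem_image.1 he
    exact mem_filter.2 ⟨mem_univ _, a, Sym2.mem_mk_left a w, ha⟩
  · -- probability
    rw [Fintype.sum_unique]
    have h1 : Real.exp (2 * (1 / (d : ℝ) ^ 5) * ((Qv G v).card : ℝ)) ≤ Real.exp 1 := by
      refine Real.exp_le_exp.2 ?_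
      have h2 := card_Qv hE.reg v
      have h3 : 2 * (1 / (d : ℝ) ^ 5) * ((Qv G v).card : ℝ) ≤
          2 * (1 / (d : ℝ) ^ 5) * ((d + 1) * d) := mul_le_mul_of_nonneg_left h2 (by positivity)
      refine h3.trans ?_
      have h4 : 2 * (1 / (d : ℝ) ^ 5) * ((d + 1) * d) = 2 * (d + 1) / (d : ℝ) ^ 4 := by
        field_simp
      rw [h4, div_le_one (by positivity)]
      have h5 : (4 : ℝ) ≤ d := by linarith [show (4 : ℝ) ≤ 10 ^ 6 by norm_num]
      have h6 : (d : ℝ) ^ 2 ≤ d ^ 4 := pow_le_pow_right₀ hd' (by norm_num)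
      nlinarith
    calc _ ≤ 1 / (d : ℝ) ^ 8 / Real.exp 1 * Real.exp 1 :=
          mul_le_mul (key.trans l3) h1 (Real.exp_pos _).le (by positivity)
      _ = 1 / (d : ℝ) ^ 8 := div_mul_cancel₀ _ (Real.exp_pos 1).ne'
  · intro f hf
    exact not_not.1 (hf PUnit.unit)

end Pool.Agent.Work.MP_db9399_cg.helper75
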