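import Pool.Agent.Work.MP_db9399_cg_helper75.COORD

/-!
# MP_db9399, SPW, A3: sums over the sides of a vertex (helper75)
-/

set_option autoImplicit false

namespace Pool.Agent.Work.MP_db9399_cg.helper75

open Finset Classical
open Pool.Agent.Work.MP_db9399_all (nb pr DepOnI PackI)
open Pool.Agent.Work.MP_db9399_en (ex mg card_pos)

universe u v

variable {V : Type u} [Fintype V] {M : ℕ}

/-- order condition of the pair `(v, w)` on the side `s` -/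
def oc (s : Bool) (v w : V) : Prop := if s then ix v < ix w else ix w < ix v

theorem ix_inj {v w : V} (h : ix v = ix w) : v = w := by
  unfold ix at h
  exact (Fintype.equivFin V).injective (Fin.ext h)

theorem mem_sd {G1 : SimpleGraph V} {f : Sym2 V → Fin M} {s : Bool} {v w : V} :
    w ∈ sd (cO G1 f) s v ↔ G1.Adj v w ∧ (oc s v w ↔ (f s(v, w) : ℕ) % 2 = 0) := by
  unfold sd cO oc
  cases s
  · simp only [Bool.false_eq_true, if_false, mem_filter, mem_univ, true_and]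
    rw [Sym2.eq_swap (a := w) (b := v), G1.adj_comm w v]
  · simp only [if_true, mem_filter, mem_univ, true_and]

theorem cZ_iff {G1 : SimpleGraph V} {θ : V → V → ℝ} {f : Sym2 V → Fin M} {v w : V}
    (h : G1.Adj v w) : cZ G1 θ f v w ↔ 2 * (((f s(v, w) : ℕ) / 2 : ℕ) : ℝ) < θ v w * M := by
  unfold cZ
  simp [h]

/-- the sum over a side, as a sum over the neighbours -/
theorem side_sum (G1 : SimpleGraph V) (θ : V → V → ℝ) (f : Sym2 V → Fin M) (s : Bool) (v : V)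
    (a b : V → ℝ) :
    ∑ w ∈ sdz (cO G1 f) (cZ G1 θ f) s v, a w + ∑ w ∈ sdc (cO G1 f) (cZ G1 θ f) s v, b w =
      ∑ w ∈ nb G1 v, vl (oc s v w) (θ v w) (a w) (b w) (f s(v, w)) := by
  have h1 : ∑ w ∈ sdz (cO G1 f) (cZ G1 θ f) s v, a w + ∑ w ∈ sdc (cO G1 f) (cZ G1 θ f) s v, b w =
      ∑ w ∈ sd (cO G1 f) s v, if cZ G1 θ f v w then a w else b w := by
    unfold sdz sdc
    rw [sum_ite]
  have h2 : sd (cO G1 f) s v = (nb G1 v).filter fun w => (oc s v w ↔ (f s(v, w) : ℕ) % 2 = 0) := by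
    ext w
    rw [mem_sd, mem_filter]
    unfold nb
    rw [mem_filter]
    simp
  rw [h1, h2, sum_filter]
  refine sum_congr rfl fun w hw => ?_
  have hadj : G1.Adj v w := by
    unfold nb at hw
    exact (mem_filter.1 hw).2
  unfold vl
  by_cases hc : (oc s v w ↔ (f s(v, w) : ℕ) % 2 = 0)
  · rw [if_pos hc, if_pos hc]
    by_cases hz : cZ G1 θ f v w
    · rw [if_pos hz, if_pos ((cZ_iff hadj).1 hz)]
    · rw [if_neg hz, if_neg (fun h => hz ((cZ_iff hadj).2 h))]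
  · rw [if_neg hc, if_neg hc]

theorem tot_eq (G1 : SimpleGraph V) (θ x1 : V → V → ℝ) (f : Sym2 V → Fin M) (s : Bool) (v : V) :
    tot (cO G1 f) (cZ G1 θ f) x1 s v =
      ∑ w ∈ nb G1 v, vl (oc s v w) (θ v w) 1 (x1 v w) (f s(v, w)) := by
  rw [← side_sum G1 θ f s v (fun _ => 1) (fun w => x1 v w)]
  unfold tot
  simp

theorem vl_mean' {N : ℕ} (hN : 0 < N) (hM : M = 2 * N) (A : Prop) {θ α β : ℝ} (h0 : 0 ≤ θ)
    (h1 : θ ≤ 1) (hα : 0 ≤ α) (hα1 : α ≤ 1) (hβ : 0 ≤ β) (hβ1 : β ≤ 1) :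
    |(∑ x : Fin M, vl A θ α β x) / (M : ℝ) - (θ * α + (1 - θ) * β) / 2| ≤ 1 / (2 * N) := by
  subst hM
  exact vl_mean hN A h0 h1 hα hα1 hβ hβ1

/-- one-vertex sums -/
theorem side_tail {J : Type u} [Fintype J] {N : ℕ} (hN : 0 < N) (hMN : M = 2 * N) (Nb : Finset V)
    (key : V → J) (hkey : ∀ w w', key w = key w' → w = w') (A : V → Prop) (θ a b : V → ℝ)
    (hθ : ∀ w, 0 ≤ θ w ∧ θ w ≤ 1) (ha : ∀ w, 0 ≤ a w ∧ a w ≤ 1)
    (hb : ∀ w, 0 ≤ b w ∧ b w ≤ 1) {m t D : ℝ} (hD : (Nb.card : ℝ) ≤ D)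
    (hm0 : 0 < m) (hm : (∑ w ∈ Nb, (θ w * a w + (1 - θ w) * b w)) / 2 + D / (2 * N) ≤ m)
    (ht : 0 < t) (hDt : D / (2 * N) ≤ t) :
    pr (fun f : J → Fin M => 2 * t ≤
      |∑ w ∈ Nb, vl (A w) (θ w) (a w) (b w) (f (key w)) -
        (∑ w ∈ Nb, (θ w * a w + (1 - θ w) * b w)) / 2|) ≤
      2 * Real.exp (-(min (t ^ 2 / (4 * 1 * m)) (t / (2 * 1)))) := by
  have hM : 0 < M := by omega
  have hμ : |∑ w ∈ Nb, (∑ x : Fin M, vl (A w) (θ w) (a w) (b w) x) / (M : ℝ) -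
      (∑ w ∈ Nb, (θ w * a w + (1 - θ w) * b w)) / 2| ≤ D / (2 * N) := by
    rw [sum_div, ← sum_sub_distrib]
    refine (abs_sum_le_sum_abs _ _).trans ?_
    refine (sum_le_sum fun w _ => vl_mean' hN hMN (A w) (hθ w).1 (hθ w).2 (ha w).1 (ha w).2
      (hb w).1 (hb w).2).trans ?_
    rw [sum_const, nsmul_eq_mul, mul_one_div]
    exact div_le_div_of_nonneg_right hD (by positivity)
  have h1 := tail hM Nb key (fun i _ i' _ h => hkey i i' h)
    (fun w => vl (A w) (θ w) (a w) (b w)) (B := 1) (m := m) (s := t)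
    (fun i _ x => vl_nonneg _ _ (ha i).1 (hb i).1 x)
    (fun i _ x => vl_le _ _ (ha i).2 (hb i).2 zero_le_one x) one_pos hm0 (by
      have := (abs_le.1 hμ).2
      linarith) ht
  refine (pr_mono' ?_).trans h1
  intro f hf
  have h2 := abs_sub_le (∑ w ∈ Nb, vl (A w) (θ w) (a w) (b w) (f (key w)))
    (∑ w ∈ Nb, (∑ x : Fin M, vl (A w) (θ w) (a w) (b w) x) / (M : ℝ))
    ((∑ w ∈ Nb, (θ w * a w + (1 - θ w) * b w)) / 2)
  linarith

end Pool.Agent.Work.MP_db9399_cg.helper75
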