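import Pool.Agent.Work.MP_db9399_cg_helper75.A3a

/-!
# MP_db9399, SPW, A3: second neighbourhood and the union bound (helper75)
-/

set_option autoImplicit false

namespace Pool.Agent.Work.MP_db9399_cg.helper75

open Finset Classical
open Pool.Agent.Work.MP_db9399_all (nb pr DepOnI PackI)
open Pool.Agent.Work.MP_db9399_en (ex mg card_pos)

universe u v

variable {V : Type u} [Fintype V] {M : ℕ}

/-- walks of length two from `v` which do not return -/
noncomputable def P2 (G1 : SimpleGraph V) (v : V) : Finset (Σ _ : V, V) :=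
  (nb G1 v).sigma fun w => (nb G1 w).erase v

noncomputable def P2c (G1 : SimpleGraph V) (v : V) (τ : Bool) : Finset (Σ _ : V, V) :=
  (P2 G1 v).filter fun p => oc τ p.1 p.2

theorem mem_nb {G1 : SimpleGraph V} {v w : V} : w ∈ nb G1 v ↔ G1.Adj v w := by
  simp [nb]

theorem card_P2 (G1 : SimpleGraph V) (v : V) {d : ℕ} (hd : ∀ w, (nb G1 w).card ≤ d) :
    ((P2 G1 v).card : ℝ) ≤ d * d := by
  unfold P2
  rw [card_sigma]
  have h1 : ∑ w ∈ nb G1 v, ((nb G1 w).erase v).card ≤ ∑ _w ∈ nb G1 v, d :=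
    sum_le_sum fun w _ => (card_le_card (erase_subset _ _)).trans (hd w)
  rw [sum_const, smul_eq_mul] at h1
  have h2 : (nb G1 v).card * d ≤ d * d := Nat.mul_le_mul_right _ (hd v)
  exact_mod_cast h1.trans h2

theorem sum_P2 (G1 : SimpleGraph V) (v : V) (F : V → V → ℝ) :
    ∑ w ∈ nb G1 v, ∑ y ∈ (nb G1 w).erase v, F w y =
      ∑ p ∈ P2c G1 v true, F p.1 p.2 + ∑ p ∈ P2c G1 v false, F p.1 p.2 := by
  have h1 : ∑ w ∈ nb G1 v, ∑ y ∈ (nb G1 w).erase v, F w y = ∑ p ∈ P2 G1 v, F p.1 p.2 := by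
    unfold P2
    rw [sum_sigma]
  have h2 : P2c G1 v false = (P2 G1 v).filter fun p => ¬ oc true p.1 p.2 := by
    unfold P2c
    refine filter_congr fun p hp => ?_
    unfold P2 at hp
    rw [mem_sigma, mem_erase, mem_nb, mem_nb] at hp
    have hne : ix p.1 ≠ ix p.2 := fun h => hp.2.2.ne (ix_inj h)
    unfold oc
    simp only [Bool.false_eq_true, if_false, if_true, not_lt]
    exact ⟨le_of_lt, fun h => lt_of_le_of_ne h (Ne.symm hne)⟩
  rw [h1, h2]
  unfold P2c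
  exact (sum_filter_add_sum_filter_not _ _ _).symm

/-- the sum of class `τ` -/
noncomputable def X2 {J : Type u} (G1 : SimpleGraph V) (θ x1 : V → V → ℝ) (cc : V → ℝ)
    (key : V → V → J) (v : V) (s τ : Bool) (f : J → Fin M) : ℝ :=
  ∑ p ∈ P2c G1 v τ, vl (oc s v p.1) (θ v p.1) 0 (1 / cc p.1) (f (key v p.1)) *
    (vl (oc (!s) p.1 p.2) (θ p.1 p.2) 1 (x1 p.1 p.2) (f (key p.1 p.2)) -
      (∑ x : Fin M, vl (oc (!s) p.1 p.2) (θ p.1 p.2) 1 (x1 p.1 p.2) x) / M)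

theorem second_tail {J : Type u} [Fintype J] {N : ℕ} (hN : 0 < N) (hMN : M = 2 * N)
    (G1 : SimpleGraph V) (θ x1 : V → V → ℝ) (cc : V → ℝ) (key : V → V → J)
    (hki : ∀ a b c e, key a b = key c e → (a = c ∧ b = e) ∨ (a = e ∧ b = c)) (v : V) (s τ : Bool)
    {d : ℕ} {κ t : ℝ} (hd : ∀ w, (nb G1 w).card ≤ d) (hd0 : 0 < d) (hκ : 0 < κ) (hκ1 : κ ≤ 1 / 2)
    (hθ : ∀ v w, 0 ≤ θ v w ∧ θ v w ≤ 2 * κ) (hx : ∀ v w, 0 ≤ x1 v w ∧ x1 v w ≤ 2 * κ)
    (hcc : ∀ w, (d : ℝ) / 4 ≤ cc w) (hNκ : 1 / (2 * (N : ℝ)) ≤ κ) (ht : 0 < t) :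
    pr (fun f : J → Fin M => t ≤ |X2 G1 θ x1 cc key v s τ f|) ≤
      2 * Real.exp (-(min (t ^ 2 / (4 * (4 / d) * (12 * κ * d))) (t / (2 * (4 / d))))) := by
  have hM : 0 < M := by omega
  have hM' : (0 : ℝ) < M := by exact_mod_cast hM
  have hd' : (0 : ℝ) < d := by exact_mod_cast hd0
  have hcc' : ∀ w, 0 ≤ 1 / cc w ∧ 1 / cc w ≤ 4 / d := by
    intro w
    have h1 := hcc w
    have h2 : 0 < cc w := lt_of_lt_of_le (by positivity) h1
    refine ⟨by positivity, ?_⟩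
    rw [div_le_div_iff₀ h2 hd']
    linarith
  refine pr_cond hM (univ.image fun w => key v w) _ fun a => ?_
  -- the coefficients are fixed now
  set c : V → ℝ := fun w => vl (oc s v w) (θ v w) 0 (1 / cc w) (a (key v w)) with hc
  have hc0 : ∀ w, 0 ≤ c w := fun w => vl_nonneg _ _ (le_refl _) (hcc' w).1 _
  have hc1 : ∀ w, c w ≤ 4 / d := fun w => vl_le _ _ (by positivity) (hcc' w).2 (by positivity) _
  set φ : (Σ _ : V, V) → Fin M → ℝ := fun p x =>
    vl (oc (!s) p.1 p.2) (θ p.1 p.2) 1 (x1 p.1 p.2) x with hφ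
  have hφ0 : ∀ p x, 0 ≤ φ p x := fun p x => vl_nonneg _ _ zero_le_one (hx _ _).1 _
  have hφ1 : ∀ p x, φ p x ≤ 1 := fun p x => vl_le _ _ (le_refl _)
    ((hx _ _).2.trans (by linarith)) zero_le_one _
  have hμ : ∀ p, (∑ x, φ p x) / M ≤ 3 * κ := by
    intro p
    have h1 := (abs_le.1 (vl_mean' hN hMN (oc (!s) p.1 p.2) (hθ p.1 p.2).1
      ((hθ p.1 p.2).2.trans (by linarith)) zero_le_one (le_refl 1) (hx p.1 p.2).1
      ((hx p.1 p.2).2.trans (by linarith)))).2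
    have h2 := (hθ p.1 p.2).1
    have h3 := (hθ p.1 p.2).2
    have h4 := (hx p.1 p.2).1
    have h5 := (hx p.1 p.2).2
    have h6 : 0 ≤ θ p.1 p.2 * x1 p.1 p.2 := mul_nonneg h2 h4
    have h7 : (θ p.1 p.2 * 1 + (1 - θ p.1 p.2) * x1 p.1 p.2) / 2 ≤ 2 * κ := by nlinarith
    linarith
  have hX : ∀ b : J → Fin M, X2 G1 θ x1 cc key v s τ (mg (univ.image fun w => key v w) a b) =
      ∑ p ∈ P2c G1 v τ, c p.1 * φ p (b (key p.1 p.2)) -
        ∑ p ∈ P2c G1 v τ, (∑ x, c p.1 * φ p x) / M := by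
    intro b
    rw [← sum_sub_distrib]
    unfold X2
    refine sum_congr rfl fun p hp => ?_
    have hp' : p ∈ P2 G1 v := (mem_filter.1 hp).1
    unfold P2 at hp'
    rw [mem_sigma, mem_erase, mem_nb, mem_nb] at hp'
    have e1 : mg (univ.image fun w => key v w) a b (key v p.1) = a (key v p.1) := by
      unfold mg
      rw [if_pos (mem_image_of_mem _ (mem_univ _))]
    have e2 : mg (univ.image fun w => key v w) a b (key p.1 p.2) = b (key p.1 p.2) := by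
      unfold mg
      rw [if_neg]
      intro h
      obtain ⟨w, _, hw⟩ := mem_image.1 h
      rcases hki _ _ _ _ hw with ⟨h1, _⟩ | ⟨h1, _⟩
      · exact hp'.1.ne h1
      · exact hp'.2.1 h1.symm
    rw [e1, e2, mul_sub, ← mul_sum, mul_div_assoc]
  have h1 := tail (J := J) hM (P2c G1 v τ) (fun p => key p.1 p.2) (by
      intro p hp p' hp' h
      rcases hki _ _ _ _ h with ⟨h1, h2⟩ | ⟨h1, h2⟩
      · exact Sigma.ext h1 (heq_of_eq h2)
      · exfalso
        have q1 : oc τ p.1 p.2 := (mem_filter.1 hp).2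
        have q2 : oc τ p'.1 p'.2 := (mem_filter.1 hp').2
        rw [h1, h2] at q1
        unfold oc at q1 q2
        cases τ
        · simp only [Bool.false_eq_true, if_false] at q1 q2
          omega
        · simp only [if_true] at q1 q2
          omega)
    (fun p x => c p.1 * φ p x) (B := 4 / d) (m := 12 * κ * d) (s := t)
    (fun p _ x => mul_nonneg (hc0 _) (hφ0 p x))
    (fun p _ x => by
      calc c p.1 * φ p x ≤ c p.1 * 1 := mul_le_mul_of_nonneg_left (hφ1 p x) (hc0 _)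
        _ ≤ 4 / d := by rw [mul_one]; exact hc1 _)
    (by positivity) (by positivity) (by
      have e1 : ∀ p ∈ P2c G1 v τ, (∑ x, c p.1 * φ p x) / M ≤ 4 / d * (3 * κ) := by
        intro p _
        rw [← mul_sum, mul_div_assoc]
        exact mul_le_mul (hc1 _) (hμ p) (div_nonneg (sum_nonneg fun x _ => hφ0 p x) hM'.le)
          (by positivity)
      refine (sum_le_sum e1).trans ?_
      rw [sum_const, nsmul_eq_mul]
      have e2 : ((P2c G1 v τ).card : ℝ) ≤ d * d := by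
        refine le_trans ?_ (card_P2 G1 v hd)
        exact_mod_cast card_le_card (filter_subset _ _)
      calc ((P2c G1 v τ).card : ℝ) * (4 / d * (3 * κ)) ≤ (d * d) * (4 / d * (3 * κ)) :=
            mul_le_mul_of_nonneg_right e2 (by positivity)
        _ = 12 * κ * d := by field_simp; ring) ht
  refine (pr_mono' ?_).trans h1
  intro b hb
  rw [hX b] at hb
  exact hb

/-- union bound for all the conditions at `v` -/
theorem bad_le {J : Type u} [Fintype J] {N m : ℕ} (hN : 0 < N) (hMN : M = 2 * N)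
    (G1 : SimpleGraph V) (θ x1 : V → V → ℝ) (h : Fin m → V → V → ℝ) (cc : V → ℝ) (key : V → V → J)
    (hki : ∀ a b c e, key a b = key c e → (a = c ∧ b = e) ∨ (a = e ∧ b = c)) (v : V)
    {d : ℕ} {κ t1 t2 t3 E : ℝ} (hd : ∀ w, (nb G1 w).card ≤ d) (hd0 : 0 < d) (hκ : 0 < κ)
    (hκ1 : κ ≤ 1 / 2)
    (hθ : ∀ v w, 0 ≤ θ v w ∧ θ v w ≤ 2 * κ) (hx : ∀ v w, 0 ≤ x1 v w ∧ x1 v w ≤ 2 * κ)
    (hh : ∀ j v w, 0 ≤ h j v w ∧ h j v w ≤ 1)
    (hcc : ∀ w, (d : ℝ) / 4 ≤ cc w) (hNκ : 1 / (2 * (N : ℝ)) ≤ κ) (ht1 : 0 < t1) (ht2 : 0 < t2)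
    (ht3 : 0 < t3) (hD1 : (d : ℝ) / (2 * N) ≤ t1) (hD2 : (d : ℝ) / (2 * N) ≤ t2)
    (hE1 : E ≤ min (t1 ^ 2 / (4 * 1 * (2 * d))) (t1 / (2 * 1)))
    (hE2 : E ≤ min (t2 ^ 2 / (4 * 1 * (2 * κ * d))) (t2 / (2 * 1)))
    (hE3 : E ≤ min (t3 ^ 2 / (4 * (4 / d) * (12 * κ * d))) (t3 / (2 * (4 / d))))
    (C : (J → Fin M) → Prop)
    (hC : ∀ f, (∀ j s, |∑ w ∈ nb G1 v, vl (oc s v w) (θ v w) 0 (h j v w) (f (key v w)) -
        (∑ w ∈ nb G1 v, (θ v w * 0 + (1 - θ v w) * h j v w)) / 2| < 2 * t1) →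
      (∀ j s, |∑ w ∈ nb G1 v, vl (oc s v w) (θ v w) (h j v w) 0 (f (key v w)) -
        (∑ w ∈ nb G1 v, (θ v w * h j v w + (1 - θ v w) * 0)) / 2| < 2 * t2) →
      (∀ s τ, |X2 G1 θ x1 cc key v s τ f| < t3) → C f) :
    pr (fun f : J → Fin M => ¬ C f) ≤ (4 * m + 4) * (2 * Real.exp (-E)) := by
  have hd' : (0 : ℝ) < d := by exact_mod_cast hd0
  have hkv : ∀ w w', key v w = key v w' → w = w' := by
    intro w w' h
    rcases hki _ _ _ _ h with ⟨_, h⟩ | ⟨h1, h2⟩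
    · exact h
    · rw [← h1, h2]
  have hθ1 : ∀ w, 0 ≤ θ v w ∧ θ v w ≤ 1 := fun w => ⟨(hθ v w).1, (hθ v w).2.trans (by linarith)⟩
  have hcard : ((nb G1 v).card : ℝ) ≤ d := by exact_mod_cast hd v
  have hDN : (d : ℝ) / (2 * N) ≤ κ * d := by
    rw [div_eq_mul_one_div, mul_comm]
    exact mul_le_mul_of_nonneg_right hNκ hd'.le
  set E1 : (Fin m × Bool) → (J → Fin M) → Prop := fun p f => 2 * t1 ≤
    |∑ w ∈ nb G1 v, vl (oc p.2 v w) (θ v w) 0 (h p.1 v w) (f (key v w)) -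
        (∑ w ∈ nb G1 v, (θ v w * 0 + (1 - θ v w) * h p.1 v w)) / 2| with hE1d
  set E2 : (Fin m × Bool) → (J → Fin M) → Prop := fun p f => 2 * t2 ≤
    |∑ w ∈ nb G1 v, vl (oc p.2 v w) (θ v w) (h p.1 v w) 0 (f (key v w)) -
        (∑ w ∈ nb G1 v, (θ v w * h p.1 v w + (1 - θ v w) * 0)) / 2| with hE2d
  set E3 : (Bool × Bool) → (J → Fin M) → Prop := fun p f =>
    t3 ≤ |X2 G1 θ x1 cc key v p.1 p.2 f| with hE3d
  have b1 : ∀ p, pr (E1 p) ≤ 2 * Real.exp (-E) := by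
    intro p
    refine (side_tail hN hMN (nb G1 v) (fun w => key v w) hkv (fun w => oc p.2 v w) (fun w => θ v w)
      (fun _ => 0) (fun w => h p.1 v w) hθ1 (fun _ => ⟨le_refl _, zero_le_one⟩)
      (fun w => hh p.1 v w) (m := 2 * d) (t := t1) (D := d) hcard (by positivity) ?_ ht1 hD1).trans ?_
    · have e1 : ∑ w ∈ nb G1 v, (θ v w * 0 + (1 - θ v w) * h p.1 v w) ≤ ∑ _w ∈ nb G1 v, (1 : ℝ) := by
        refine sum_le_sum fun w _ => ?_
        have := hθ1 w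
        have := hh p.1 v w
        nlinarith
      rw [sum_const, nsmul_eq_mul, mul_one] at e1
      have e2 : κ * d ≤ 1 * d := mul_le_mul_of_nonneg_right (by linarith) hd'.le
      linarith
    · have := Real.exp_le_exp.2 (neg_le_neg hE1)
      linarith
  have b2 : ∀ p, pr (E2 p) ≤ 2 * Real.exp (-E) := by
    intro p
    refine (side_tail hN hMN (nb G1 v) (fun w => key v w) hkv (fun w => oc p.2 v w) (fun w => θ v w)
      (fun w => h p.1 v w) (fun _ => 0) hθ1 (fun w => hh p.1 v w)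
      (fun _ => ⟨le_refl _, zero_le_one⟩)
      (m := 2 * κ * d) (t := t2) (D := d) hcard (by positivity) ?_ ht2 hD2).trans ?_
    · have e1 : ∑ w ∈ nb G1 v, (θ v w * h p.1 v w + (1 - θ v w) * 0) ≤
          ∑ _w ∈ nb G1 v, 2 * κ := by
        refine sum_le_sum fun w _ => ?_
        have := hθ v w
        have := hh p.1 v w
        nlinarith
      rw [sum_const, nsmul_eq_mul] at e1
      have e2 : ((nb G1 v).card : ℝ) * (2 * κ) ≤ d * (2 * κ) :=
        mul_le_mul_of_nonneg_right hcard (by positivity)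
      linarith
    · have := Real.exp_le_exp.2 (neg_le_neg hE2)
      linarith
  have b3 : ∀ p, pr (E3 p) ≤ 2 * Real.exp (-E) := by
    intro p
    refine (second_tail hN hMN G1 θ x1 cc key hki v p.1 p.2 hd hd0 hκ hκ1 hθ hx hcc hNκ ht3).trans ?_
    have := Real.exp_le_exp.2 (neg_le_neg hE3)
    linarith
  have c1 := pr_ex' (univ : Finset (Fin m × Bool)) E1 (fun f => ∃ p ∈ univ, E1 p f) (fun f h => h)
  have c2 := pr_ex' (univ : Finset (Fin m × Bool)) E2 (fun f => ∃ p ∈ univ, E2 p f) (fun f h => h)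
  have c3 := pr_ex' (univ : Finset (Bool × Bool)) E3 (fun f => ∃ p ∈ univ, E3 p f) (fun f h => h)
  have d1 : ∑ p : Fin m × Bool, pr (E1 p) ≤ (2 * m) * (2 * Real.exp (-E)) := by
    refine (sum_le_sum fun p _ => b1 p).trans ?_
    rw [sum_const, card_univ, nsmul_eq_mul, Fintype.card_prod, Fintype.card_fin, Fintype.card_bool]
    push_cast
    linarith
  have d2 : ∑ p : Fin m × Bool, pr (E2 p) ≤ (2 * m) * (2 * Real.exp (-E)) := by
    refine (sum_le_sum fun p _ => b2 p).trans ?_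
    rw [sum_const, card_univ, nsmul_eq_mul, Fintype.card_prod, Fintype.card_fin, Fintype.card_bool]
    push_cast
    linarith
  have d3 : ∑ p : Bool × Bool, pr (E3 p) ≤ 4 * (2 * Real.exp (-E)) := by
    refine (sum_le_sum fun p _ => b3 p).trans ?_
    rw [sum_const, card_univ, nsmul_eq_mul, Fintype.card_prod, Fintype.card_bool]
    push_cast
    linarith
  refine (pr_add' _ (fun f => ∃ p ∈ univ, E1 p f)
    (fun f => (∃ p ∈ univ, E2 p f) ∨ ∃ p ∈ univ, E3 p f) ?_).trans ?_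
  · intro f hf
    by_contra hcon
    simp only [not_or, not_exists, not_and] at hcon
    refine hf (hC f (fun j s => ?_) (fun j s => ?_) fun s τ => ?_)
    · exact not_le.1 (hcon.1 (j, s) (mem_univ _))
    · exact not_le.1 (hcon.2.1 (j, s) (mem_univ _))
    · exact not_le.1 (hcon.2.2 (s, τ) (mem_univ _))
  · have c4 := pr_add' (fun f => (∃ p ∈ univ, E2 p f) ∨ ∃ p ∈ univ, E3 p f)
      (fun f => ∃ p ∈ univ, E2 p f) (fun f => ∃ p ∈ univ, E3 p f) (fun f h => h)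
    linarith

end Pool.Agent.Work.MP_db9399_cg.helper75
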