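import Pool.Agent.Work.MP_db9399_cg.Interface2
import Pool.Agent.Work.MP_db9399_en.PROB

/-!
# MP_db9399, SPW, A3: one coordinate, tails, conditioning (helper75)
-/

set_option autoImplicit false

namespace Pool.Agent.Work.MP_db9399_cg.helper75

open Finset Classical
open Pool.Agent.Work.MP_db9399_all (nb pr DepOnI PackI)
open Pool.Agent.Work.MP_db9399_en (ex mg sum_mg up_aux chern_low card_pos)

universe u v

variable {J : Type u} [Fintype J] {M : ℕ}

theorem pr_mono' {E F : (J → Fin M) → Prop} (h : ∀ f, E f → F f) : pr E ≤ pr F := by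
  unfold pr
  refine div_le_div_of_nonneg_right ?_ (Nat.cast_nonneg _)
  exact_mod_cast card_le_card (fun f hf => by
    rw [mem_filter] at hf ⊢
    exact ⟨hf.1, h f hf.2⟩)

theorem pr_add' (G E F : (J → Fin M) → Prop) (h : ∀ f, G f → E f ∨ F f) :
    pr G ≤ pr E + pr F := by
  unfold pr
  rw [← add_div]
  refine div_le_div_of_nonneg_right ?_ (Nat.cast_nonneg _)
  have h1 : univ.filter G ⊆ univ.filter E ∪ univ.filter F := by
    intro f hf
    rw [mem_union, mem_filter, mem_filter]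
    rw [mem_filter] at hf
    rcases h f hf.2 with h | h
    · exact Or.inl ⟨hf.1, h⟩
    · exact Or.inr ⟨hf.1, h⟩
  exact_mod_cast (card_le_card h1).trans (card_union_le _ _)

theorem pr_nonneg' (E : (J → Fin M) → Prop) : 0 ≤ pr E := by
  unfold pr; positivity

theorem pr_ex' {κ : Type v} (A : Finset κ) (E : κ → (J → Fin M) → Prop) :
    ∀ G : (J → Fin M) → Prop, (∀ f, G f → ∃ k ∈ A, E k f) → pr G ≤ ∑ k ∈ A, pr (E k) := by
  induction A using Finset.induction_on with
  | empty =>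
    intro G hG
    rw [sum_empty]
    unfold pr
    rw [filter_false_of_mem, card_empty, Nat.cast_zero, zero_div]
    intro f _ hf
    obtain ⟨k, hk, _⟩ := hG f hf
    simp at hk
  | insert k A hk ih =>
    intro G hG
    rw [sum_insert hk]
    refine (pr_add' G (E k) (fun f => G f ∧ ¬ E k f) fun f hf => ?_).trans
      (add_le_add (le_refl _) (ih _ fun f hf => ?_))
    · by_cases h : E k f
      · exact Or.inl h
      · exact Or.inr ⟨hf, h⟩
    · obtain ⟨k', hk', hf'⟩ := hG f hf.1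
      rcases mem_insert.1 hk' with rfl | h
      · exact absurd hf' hf.2
      · exact ⟨k', h, hf'⟩

/-- mean of a function of one coordinate -/
theorem ex_coord (hM : 0 < M) (e : J) (φ : Fin M → ℝ) :
    ex (fun f : J → Fin M => φ (f e)) = (∑ x, φ x) / M := by
  have h0 : ∀ f : J → Fin M, φ (f e) = (fun p : Fin M × ((j : {j // j ≠ e}) → Fin M) => φ p.1)
      (Equiv.piSplitAt e (fun _ => Fin M) f) := by
    intro f
    rw [Equiv.piSplitAt_apply]
  have h1 : ∑ f : J → Fin M, φ (f e) =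
      ∑ p : Fin M × ((j : {j // j ≠ e}) → Fin M), φ p.1 := by
    rw [sum_congr rfl fun f _ => h0 f]
    exact Equiv.sum_comp (Equiv.piSplitAt e (fun _ => Fin M))
      (fun p : Fin M × ((j : {j // j ≠ e}) → Fin M) => φ p.1)
  have h2 : Fintype.card (J → Fin M) = M * Fintype.card ({j // j ≠ e} → Fin M) := by
    rw [Fintype.card_congr (Equiv.piSplitAt e fun _ => Fin M), Fintype.card_prod, Fintype.card_fin]
  have hne : Nonempty (Fin M) := ⟨⟨0, hM⟩⟩
  have h3 : (0 : ℝ) < (Fintype.card ({j // j ≠ e} → Fin M) : ℝ) := by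
    exact_mod_cast Fintype.card_pos
  have h4 : (0 : ℝ) < M := by exact_mod_cast hM
  unfold ex
  rw [h1, h2, Fintype.sum_prod_type]
  simp only [sum_const, card_univ, nsmul_eq_mul]
  rw [← mul_sum]
  push_cast
  field_simp

/-- two-sided tail for a sum of functions of different coordinates -/
theorem tail (hM : 0 < M) {ι : Type v} (I : Finset ι) (key : ι → J)
    (hk : ∀ i ∈ I, ∀ i' ∈ I, key i = key i' → i = i')
    (ψ : ι → Fin M → ℝ) {B m s : ℝ} (h0 : ∀ i ∈ I, ∀ x, 0 ≤ ψ i x) (hB : ∀ i ∈ I, ∀ x, ψ i x ≤ B)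
    (hB0 : 0 < B) (hm0 : 0 < m) (hm : ∑ i ∈ I, (∑ x, ψ i x) / M ≤ m) (hs : 0 < s) :
    pr (fun f : J → Fin M => s ≤ |∑ i ∈ I, ψ i (f (key i)) - ∑ i ∈ I, (∑ x, ψ i x) / M|) ≤
      2 * Real.exp (-(min (s ^ 2 / (4 * B * m)) (s / (2 * B)))) := by
  set μ : ℝ := ∑ i ∈ I, (∑ x, ψ i x) / M with hμ
  have hM' : (0 : ℝ) < M := by exact_mod_cast hM
  have hex : ∑ i ∈ I, ex (fun f : J → Fin M => ψ i (f (key i))) = μ :=
    sum_congr rfl fun i _ => ex_coord hM (key i) (ψ i)
  have hμ0 : 0 ≤ μ := sum_nonneg fun i hi => div_nonneg (sum_nonneg fun x _ => h0 i hi x) hM'.le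
  have hdep : ∀ i ∈ I, DepOnI {key i} (fun f : J → Fin M => ψ i (f (key i))) := by
    intro i _ f f' h
    simp only
    rw [h (key i) (mem_singleton_self _)]
  have hdis : ∀ i ∈ I, ∀ i' ∈ I, i ≠ i' → Disjoint ({key i} : Finset J) {key i'} := by
    intro i hi i' hi' hne
    rw [disjoint_singleton]
    exact fun h => hne (hk i hi i' hi' h)
  -- upper tail
  have hup : pr (fun f : J → Fin M => μ + s ≤ ∑ i ∈ I, ψ i (f (key i))) ≤
      Real.exp (-(min (s ^ 2 / (4 * B * m)) (s / (2 * B)))) := by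
    by_cases hc : s ≤ 2 * m
    · set l : ℝ := s / (2 * B * m) with hl
      have hlp : 0 < l := by positivity
      have hl1 : |l| * B ≤ 1 := by
        rw [abs_of_pos hlp, hl, div_mul_eq_mul_div, div_le_one (by positivity)]
        nlinarith
      have h1 := up_aux hM I (fun i => {key i}) (fun i f => ψ i (f (key i))) hdep hdis
        (fun i hi f => h0 i hi _) (fun i hi f => hB i hi _) hl1 (μ + s)
      refine (pr_mono' (F := fun f => l * (μ + s) ≤ l * ∑ i ∈ I, ψ i (f (key i))) ?_).trans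
        (h1.trans (Real.exp_le_exp.2 ?_))
      · intro f hf
        exact mul_le_mul_of_nonneg_left hf hlp.le
      · rw [hex]
        have h3 : l ^ 2 * B * μ ≤ l ^ 2 * B * m := mul_le_mul_of_nonneg_left hm (by positivity)
        have h4 : l ^ 2 * B * m - l * s = -(s ^ 2 / (4 * B * m)) := by
          rw [hl]; field_simp; ring
        have h5 := min_le_left (s ^ 2 / (4 * B * m)) (s / (2 * B))
        nlinarith
    · rw [not_le] at hc
      have hl1 : |1 / B| * B ≤ 1 := by
        rw [abs_of_pos (by positivity)]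
        field_simp
        exact le_refl _
      have h1 := up_aux hM I (fun i => {key i}) (fun i f => ψ i (f (key i))) hdep hdis
        (fun i hi f => h0 i hi _) (fun i hi f => hB i hi _) hl1 (μ + s)
      have hlp : 0 < 1 / B := by positivity
      refine (pr_mono' (F := fun f => 1 / B * (μ + s) ≤ 1 / B * ∑ i ∈ I, ψ i (f (key i))) ?_).trans
        (h1.trans (Real.exp_le_exp.2 ?_))
      · intro f hf
        exact mul_le_mul_of_nonneg_left hf hlp.le
      · rw [hex]
        have h4 : (1 / B + (1 / B) ^ 2 * B) * μ - 1 / B * (μ + s) = μ / B - s / B := by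
          field_simp
          ring
        have h5 := min_le_right (s ^ 2 / (4 * B * m)) (s / (2 * B))
        have h6 : μ / B - s / B ≤ -(s / (2 * B)) := by
          rw [← sub_div, neg_div', div_le_div_iff₀ hB0 (by positivity)]
          nlinarith
        linarith
  -- lower tail
  have hlow : pr (fun f : J → Fin M => ∑ i ∈ I, ψ i (f (key i)) ≤ μ - s) ≤
      Real.exp (-(min (s ^ 2 / (4 * B * m)) (s / (2 * B)))) := by
    by_cases hc : s ≤ 2 * m
    · have h1 := chern_low hM I (fun i => {key i}) (fun i f => ψ i (f (key i))) hdep hdis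
        (fun i hi f => h0 i hi _) (fun i hi f => hB i hi _) hB0 hm0 (by rw [hex]; exact hm)
        (m0 := μ) (by rw [hex]) hs.le hc
      refine h1.trans (Real.exp_le_exp.2 ?_)
      have h5 := min_le_left (s ^ 2 / (4 * B * m)) (s / (2 * B))
      linarith
    · rw [not_le] at hc
      have h1 : pr (fun f : J → Fin M => ∑ i ∈ I, ψ i (f (key i)) ≤ μ - s) = 0 := by
        unfold pr
        rw [filter_false_of_mem, card_empty, Nat.cast_zero, zero_div]
        intro f _ hf
        have h2 : 0 ≤ ∑ i ∈ I, ψ i (f (key i)) := sum_nonneg fun i hi => h0 i hi _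
        linarith
      rw [h1]
      exact (Real.exp_pos _).le
  refine (pr_add' _ (fun f => μ + s ≤ ∑ i ∈ I, ψ i (f (key i)))
    (fun f => ∑ i ∈ I, ψ i (f (key i)) ≤ μ - s) ?_).trans (by linarith)
  intro f hf
  rcases le_abs.1 hf with h | h
  · left; linarith
  · right; linarith

/-- conditioning on the coordinates in `Q` -/
theorem pr_cond (hM : 0 < M) (Q : Finset J) (E : (J → Fin M) → Prop) {q : ℝ}
    (h : ∀ a, pr (fun b => E (mg Q a b)) ≤ q) : pr E ≤ q := by
  have hc : 0 < (Fintype.card (J → Fin M) : ℝ) := card_pos hM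
  have hi : ∀ F : (J → Fin M) → Prop, ((univ.filter F).card : ℝ) = ∑ b, if F b then (1 : ℝ) else 0 := by
    intro F
    rw [sum_boole]
  have h1 : (Fintype.card (J → Fin M) : ℝ) * ∑ b, (if E b then (1 : ℝ) else 0) =
      ∑ a, ∑ b, if E (mg Q a b) then (1 : ℝ) else 0 := by
    have h2 := sum_mg Q (fun a _ : J → Fin M => if E a then (1 : ℝ) else 0)
    rw [← h2]
    simp only [sum_const, card_univ, nsmul_eq_mul, ← mul_sum]
  have h3 : ∑ a : J → Fin M, ∑ b, (if E (mg Q a b) then (1 : ℝ) else 0) ≤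
      ∑ _a : J → Fin M, q * Fintype.card (J → Fin M) := by
    refine sum_le_sum fun a _ => ?_
    have h4 := h a
    unfold pr at h4
    rw [div_le_iff₀ hc, hi] at h4
    exact h4
  rw [sum_const, card_univ, nsmul_eq_mul, ← h1] at h3
  have h5 := le_of_mul_le_mul_left h3 hc
  unfold pr
  rw [div_le_iff₀ hc, hi]
  exact h5

/-- value of a pair: `α` or `β` if the orientation is right, else `0` -/
noncomputable def vl (A : Prop) (θ α β : ℝ) {M : ℕ} (x : Fin M) : ℝ :=
  if (A ↔ (x : ℕ) % 2 = 0) then (if 2 * (((x : ℕ) / 2 : ℕ) : ℝ) < θ * M then α else β) else 0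

theorem vl_nonneg (A : Prop) (θ : ℝ) {α β : ℝ} (hα : 0 ≤ α) (hβ : 0 ≤ β) (x : Fin M) :
    0 ≤ vl A θ α β x := by
  unfold vl
  split_ifs <;> first | assumption | exact le_refl _

theorem vl_le (A : Prop) (θ : ℝ) {α β B : ℝ} (hα : α ≤ B) (hβ : β ≤ B) (hB : 0 ≤ B) (x : Fin M) :
    vl A θ α β x ≤ B := by
  unfold vl
  split_ifs <;> assumption

theorem sum_par (F : ℕ → ℕ → ℝ) (N : ℕ) :
    ∑ x ∈ range (2 * N), F (x % 2) (x / 2) = ∑ y ∈ range N, (F 0 y + F 1 y) := by
  induction N with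
  | zero => simp
  | succ N ih =>
    rw [show 2 * (N + 1) = 2 * N + 1 + 1 by ring, sum_range_succ, sum_range_succ, ih,
      sum_range_succ]
    have h1 : (2 * N) % 2 = 0 := by omega
    have h2 : (2 * N) / 2 = N := by omega
    have h3 : (2 * N + 1) % 2 = 1 := by omega
    have h4 : (2 * N + 1) / 2 = N := by omega
    rw [h1, h2, h3, h4]
    ring

theorem count (N : ℕ) {θ : ℝ} (h0 : 0 ≤ θ) (h1 : θ ≤ 1) :
    θ * N ≤ (((range N).filter fun y : ℕ => 2 * (y : ℝ) < θ * ((2 * N : ℕ) : ℝ)).card : ℝ) ∧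
    (((range N).filter fun y : ℕ => 2 * (y : ℝ) < θ * ((2 * N : ℕ) : ℝ)).card : ℝ) ≤ θ * N + 1 := by
  have hiff : ∀ y : ℕ, (2 * (y : ℝ) < θ * ((2 * N : ℕ) : ℝ)) ↔ y < ⌈θ * N⌉₊ := by
    intro y
    rw [Nat.lt_ceil]
    push_cast
    constructor <;> intro h <;> linarith
  have hset : (range N).filter (fun y : ℕ => 2 * (y : ℝ) < θ * ((2 * N : ℕ) : ℝ)) =
      range ⌈θ * N⌉₊ := by
    ext y
    rw [mem_filter, mem_range, mem_range, hiff]
    refine ⟨fun h => h.2, fun h => ⟨?_, h⟩⟩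
    rw [Nat.lt_ceil] at h
    have : (y : ℝ) < N := lt_of_lt_of_le h (by
      have : (0 : ℝ) ≤ N := Nat.cast_nonneg N
      nlinarith)
    exact_mod_cast this
  rw [hset, card_range]
  exact ⟨Nat.le_ceil _, (Nat.ceil_lt_add_one (by positivity)).le⟩

theorem vl_mean {N : ℕ} (hN : 0 < N) (A : Prop) {θ α β : ℝ} (h0 : 0 ≤ θ) (h1 : θ ≤ 1) (hα : 0 ≤ α)
    (hα1 : α ≤ 1) (hβ : 0 ≤ β) (hβ1 : β ≤ 1) :
    |(∑ x : Fin (2 * N), vl A θ α β x) / ((2 * N : ℕ) : ℝ) - (θ * α + (1 - θ) * β) / 2| ≤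
      1 / (2 * N) := by
  set c : ℝ := (((range N).filter fun y : ℕ => 2 * (y : ℝ) < θ * ((2 * N : ℕ) : ℝ)).card : ℝ) with hc
  obtain ⟨hc1, hc2⟩ := count N h0 h1
  have hN' : (0 : ℝ) < N := by exact_mod_cast hN
  have e1 : ∑ x : Fin (2 * N), vl A θ α β x =
      ∑ x ∈ range (2 * N), (fun p y : ℕ => if (A ↔ p = 0) then
        (if 2 * ((y : ℕ) : ℝ) < θ * ((2 * N : ℕ) : ℝ) then α else β) else 0) (x % 2) (x / 2) := by
    rw [← Fin.sum_univ_eq_sum_range (fun x => (fun p y : ℕ => if (A ↔ p = 0) then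
        (if 2 * ((y : ℕ) : ℝ) < θ * ((2 * N : ℕ) : ℝ) then α else β) else 0) (x % 2) (x / 2))]
    rfl
  have e2 : ∑ x : Fin (2 * N), vl A θ α β x = c * α + (N - c) * β := by
    rw [e1]
    refine (sum_par (fun p y : ℕ => if (A ↔ p = 0) then
        (if 2 * ((y : ℕ) : ℝ) < θ * ((2 * N : ℕ) : ℝ) then α else β) else 0) N).trans ?_
    have e3 : ∀ y ∈ range N, ((if (A ↔ 0 = 0) then
        (if 2 * ((y : ℕ) : ℝ) < θ * ((2 * N : ℕ) : ℝ) then α else β) else 0) +
        (if (A ↔ 1 = 0) then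
        (if 2 * ((y : ℕ) : ℝ) < θ * ((2 * N : ℕ) : ℝ) then α else β) else 0)) =
        if 2 * ((y : ℕ) : ℝ) < θ * ((2 * N : ℕ) : ℝ) then α else β := by
      intro y _
      by_cases hA : A <;> simp [hA]
    rw [sum_congr rfl e3, sum_ite, sum_const, sum_const, nsmul_eq_mul, nsmul_eq_mul]
    have e4 : ((((range N).filter fun y : ℕ => ¬ 2 * (y : ℝ) < θ * ((2 * N : ℕ) : ℝ)).card : ℕ) : ℝ)
        = N - c := by
      have := card_filter_add_card_filter_not (s := range N)
        (fun y : ℕ => 2 * (y : ℝ) < θ * ((2 * N : ℕ) : ℝ))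
      rw [card_range] at this
      have h' : (((range N).filter fun y : ℕ => 2 * (y : ℝ) < θ * ((2 * N : ℕ) : ℝ)).card : ℝ) +
        (((range N).filter fun y : ℕ => ¬ 2 * (y : ℝ) < θ * ((2 * N : ℕ) : ℝ)).card : ℝ) = N := by
        exact_mod_cast this
      rw [hc]; linarith
    rw [e4, ← hc]
  rw [e2]
  have e5 : (c * α + (N - c) * β) / ((2 * N : ℕ) : ℝ) - (θ * α + (1 - θ) * β) / 2 =
      (c - θ * N) * (α - β) / (2 * N) := by
    push_cast
    field_simp
    ring
  rw [e5, abs_div, abs_mul, abs_of_pos (by positivity : (0 : ℝ) < 2 * N)]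
  refine div_le_div_of_nonneg_right ?_ (by positivity)
  have e6 : |c - θ * N| ≤ 1 := abs_le.2 ⟨by linarith, by linarith⟩
  have e7 : |α - β| ≤ 1 := abs_le.2 ⟨by linarith, by linarith⟩
  calc |c - θ * N| * |α - β| ≤ 1 * 1 := mul_le_mul e6 e7 (abs_nonneg _) zero_le_one
    _ = 1 := one_mul 1

end Pool.Agent.Work.MP_db9399_cg.helper75
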